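import Pool.Agent.helper62.RS.SpecE

/-!
# MP_07c750, row EGE: geodesics of the hyperbolic plane are orbits of the flow `aM`
-/

set_option autoImplicit false

open scoped MatrixGroups ContDiff Topology UpperHalfPlane ComplexConjugate
open UpperHalfPlane MeasureTheory Filter Set

namespace Pool.Agent.RS

theorem EGE_aM (hGLC : GLC_stmt) (t : ℝ) : (aM t • I : ℍ).re = 0 ∧ (aM t • I : ℍ).im = Real.exp t := by
  obtain ⟨-, -, -, -, -, -, -, hA, -⟩ := hGLC
  have h := hA t I
  constructor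
  · have h1 := congrArg Complex.re h
    simpa using h1
  · have h1 := congrArg Complex.im h
    have h2 : ((Real.exp t : ℂ) * ((I : ℍ) : ℂ)).im = Real.exp t := by
      rw [Complex.im_ofReal_mul]
      exact mul_one _
    rw [h2] at h1
    exact h1

theorem EGE_I (hGLC : GLC_stmt) (t : ℝ) : dist (aM t • I : ℍ) I = |t| := by
  obtain ⟨h1, h2⟩ := EGE_aM hGLC t
  rw [UpperHalfPlane.dist_of_re_eq (by rw [h1]; simp), h2, Real.log_exp]
  simp

theorem EGE_pt (hGLC : GLC_stmt) (t : ℝ) (z : ℍ) (h0 : dist z I = |t|)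
    (h1 : dist z (aM 1 • I) = |t - 1|) : z = aM t • I := by
  have e0 := UpperHalfPlane.cosh_dist' z I
  have e1 := UpperHalfPlane.cosh_dist' z (aM 1 • I)
  rw [h0, Real.cosh_abs, Real.cosh_eq] at e0
  rw [h1, Real.cosh_abs, Real.cosh_eq, (EGE_aM hGLC 1).1, (EGE_aM hGLC 1).2] at e1
  have hI1 : (I : ℍ).re = 0 := by simp
  have hI2 : (I : ℍ).im = 1 := by simp
  rw [hI1, hI2] at e0
  have hy : 0 < z.im := z.im_pos
  have hE : 0 < Real.exp 1 := Real.exp_pos 1
  have hE1 : 1 < Real.exp 1 := by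
    have := Real.add_one_lt_exp (one_ne_zero)
    linarith
  have ht : 0 < Real.exp t := Real.exp_pos t
  have x1 : Real.exp (t - 1) = Real.exp t / Real.exp 1 := Real.exp_sub t 1
  have x2 : Real.exp (-(t - 1)) = Real.exp 1 / Real.exp t := by
    rw [← Real.exp_sub]
    congr 1
    ring
  have x3 : Real.exp (-t) = 1 / Real.exp t := by rw [Real.exp_neg, one_div]
  rw [x3] at e0
  rw [x1, x2] at e1
  have hx : (aM t • I : ℍ).re = 0 := (EGE_aM hGLC t).1
  have hyy : (aM t • I : ℍ).im = Real.exp t := (EGE_aM hGLC t).2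
  generalize Real.exp t = T at *
  generalize Real.exp 1 = E at *
  generalize hxx : z.re = x at *
  generalize hyz : z.im = y at *
  field_simp at e0 e1
  have h3 : (E ^ 2 - 1) * (y - T) = 0 := by
    have : (E ^ 2 - 1) * (y - T) * T = 0 := by nlinarith
    rcases mul_eq_zero.1 this with h | h
    · exact h
    · exact absurd h ht.ne'
  have h4 : y = T := by
    rcases mul_eq_zero.1 h3 with h | h
    · nlinarith
    · linarith
  have h5 : x = 0 := by
    subst h4
    have h6 : x ^ 2 = 0 := by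
      have : y * x ^ 2 = 0 := by nlinarith
      rcases mul_eq_zero.1 this with h | h
      · exact absurd h hy.ne'
      · exact h
    exact pow_eq_zero_iff (by norm_num) |>.1 h6
  apply UpperHalfPlane.ext
  apply Complex.ext
  · show z.re = (aM t • I : ℍ).re
    rw [hxx, hx, h5]
  · show z.im = (aM t • I : ℍ).im
    rw [hyz, hyy, h4]

theorem EGE (hGLC : GLC_stmt) (hSCA : SCA_stmt) : EGE_stmt := by
  intro c hc
  have hk : ∀ θ, kM θ • I = (I : ℍ) := by
    obtain ⟨-, -, -, -, -, -, -, -, -, -, -, -, -, -, -, h, -⟩ := hGLC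
    exact h
  obtain ⟨θ, s, hs, hz⟩ := hSCA ((toSL2R (c 0))⁻¹ • c 1)
  have hc0 : toSL2R (c 0) • I = c 0 := toSL2R_smul_I _
  have hg0 : (toSL2R (c 0) * kM θ) • I = c 0 := by rw [mul_smul, hk, hc0]
  have hg1 : (toSL2R (c 0) * kM θ) • (aM s • I) = c 1 := by
    rw [mul_smul, ← hz, smul_inv_smul]
  have hs1 : s = 1 := by
    have h1 := hc 1 0
    rw [← hg0, ← hg1, dist_smul, EGE_I hGLC] at h1
    rw [abs_of_nonneg hs] at h1
    simpa using h1
  subst hs1
  refine ⟨toSL2R (c 0) * kM θ, fun t => ?_⟩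
  have h0 : dist ((toSL2R (c 0) * kM θ)⁻¹ • c t) I = |t| := by
    rw [← dist_smul (toSL2R (c 0) * kM θ), smul_inv_smul, hg0, hc, sub_zero]
  have h1 : dist ((toSL2R (c 0) * kM θ)⁻¹ • c t) (aM 1 • I) = |t - 1| := by
    rw [← dist_smul (toSL2R (c 0) * kM θ), smul_inv_smul, hg1, hc]
  rw [mul_smul, ← EGE_pt hGLC t _ h0 h1, smul_inv_smul]

end Pool.Agent.RS
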