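import Pool.Agent.helper29.RS.SpecK

/-!
# MP_07c750, row IN0: the derivatives of `g ↦ V (g • I)` along the three flows
-/

set_option autoImplicit false

open scoped MatrixGroups ContDiff Topology UpperHalfPlane ComplexConjugate
open UpperHalfPlane MeasureTheory Filter Set

namespace Pool.Agent.RS

theorem IN0_coe (g : SL(2, ℝ)) (z : ℍ) : ((g • z : ℍ) : ℂ) =
    (((g 0 0 : ℝ) : ℂ) * z + ((g 0 1 : ℝ) : ℂ)) / (((g 1 0 : ℝ) : ℂ) * z + ((g 1 1 : ℝ) : ℂ)) :=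
  coe_specialLinearGroup_apply g z

theorem IN0_det (g : SL(2, ℝ)) : g 0 0 * g 1 1 - g 0 1 * g 1 0 = 1 := by
  have h := Matrix.det_fin_two (g : Matrix (Fin 2) (Fin 2) ℝ)
  rw [g.det_coe] at h
  exact h.symm

theorem IN0_den (g : SL(2, ℝ)) (z : ℍ) : ((g 1 0 : ℝ) : ℂ) * z + ((g 1 1 : ℝ) : ℂ) ≠ 0 := by
  intro h
  have him := congrArg Complex.im h
  have hre := congrArg Complex.re h
  simp at him hre
  have hz : (z : ℂ).im ≠ 0 := z.im_pos.ne'
  have h10 : g 1 0 = 0 := by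
    rcases him with h | h
    · exact h
    · exact absurd h z.im_pos.ne'
  rw [h10, zero_mul, zero_add] at hre
  have := IN0_det g
  rw [h10, hre] at this
  simp at this

/-- the derivative in the direction `vv` -/
noncomputable def IN0_d (V : ℍ → ℝ) (vv : ℂ) (g : SL(2, ℝ)) : ℝ :=
  fderiv ℝ (QU.onC V) ((g • I : ℍ) : ℂ) (vv / (((g 1 0 : ℝ) : ℂ) * Complex.I + ((g 1 1 : ℝ) : ℂ)) ^ 2)

theorem IN0_open : IsOpen {w : ℂ | 0 < w.im} := isOpen_lt continuous_const Complex.continuous_im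

theorem IN0_der (V : ℍ → ℝ) (hV : QU.CD 2 V) (g : SL(2, ℝ)) (w : ℝ → ℍ) (vv : ℂ)
    (hw : HasDerivAt (fun τ => ((w τ : ℍ) : ℂ)) vv 0) (hw0 : w 0 = I) :
    HasDerivAt (fun τ => V (g • w τ)) (IN0_d V vv g) 0 := by
  have h1 : HasDerivAt (fun τ => ((g • w τ : ℍ) : ℂ))
      (vv / (((g 1 0 : ℝ) : ℂ) * Complex.I + ((g 1 1 : ℝ) : ℂ)) ^ 2) 0 := by
    have hfun : (fun τ => ((g • w τ : ℍ) : ℂ)) = fun τ =>
        (((g 0 0 : ℝ) : ℂ) * ((w τ : ℍ) : ℂ) + ((g 0 1 : ℝ) : ℂ)) /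
          (((g 1 0 : ℝ) : ℂ) * ((w τ : ℍ) : ℂ) + ((g 1 1 : ℝ) : ℂ)) := by
      funext τ
      exact IN0_coe g (w τ)
    rw [hfun]
    have hn := (hw.const_mul ((g 0 0 : ℝ) : ℂ)).add_const ((g 0 1 : ℝ) : ℂ)
    have hd := (hw.const_mul ((g 1 0 : ℝ) : ℂ)).add_const ((g 1 1 : ℝ) : ℂ)
    have hden := IN0_den g (w 0)
    have h2 := hn.div hd hden
    have hI : ((w 0 : ℍ) : ℂ) = Complex.I := by rw [hw0]; rfl
    rw [hI] at h2
    have hdet : ((g 0 0 : ℝ) : ℂ) * ((g 1 1 : ℝ) : ℂ) - ((g 0 1 : ℝ) : ℂ) * ((g 1 0 : ℝ) : ℂ) = 1 := by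
      exact_mod_cast congrArg (fun x : ℝ => (x : ℂ)) (IN0_det g)
    have hnum : ((g 0 0 : ℝ) : ℂ) * vv * (((g 1 0 : ℝ) : ℂ) * Complex.I + ((g 1 1 : ℝ) : ℂ)) -
        (((g 0 0 : ℝ) : ℂ) * Complex.I + ((g 0 1 : ℝ) : ℂ)) * (((g 1 0 : ℝ) : ℂ) * vv) = vv := by
      linear_combination vv * hdet
    rw [hnum] at h2
    exact h2
  have hV' : DifferentiableAt ℝ (QU.onC V) (((g • w 0 : ℍ)) : ℂ) :=
    ((hV.contDiffAt (IN0_open.mem_nhds (g • w 0).im_pos)).differentiableAt (by norm_num))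
  have h3 := hV'.hasFDerivAt.comp_hasDerivAt (0 : ℝ) h1
  have hfun : (fun τ => V (g • w τ)) = QU.onC V ∘ fun τ => ((g • w τ : ℍ) : ℂ) := by
    funext τ
    rw [Function.comp_apply, QU.onC, ofComplex_apply]
  rw [hfun]
  rw [hw0] at h3
  exact h3

theorem IN0_cont (V : ℍ → ℝ) (hV : QU.CD 2 V) (vv : ℂ) : Continuous (IN0_d V vv) := by
  have hent : ∀ i j, Continuous fun g : SL(2, ℝ) => ((g i j : ℝ) : ℂ) := by
    intro i j
    refine Complex.continuous_ofReal.comp ?_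
    exact (Continuous.matrix_elem continuous_subtype_val i j)
  have hz : Continuous fun g : SL(2, ℝ) => ((g • I : ℍ) : ℂ) := by
    have hfun : (fun g : SL(2, ℝ) => ((g • I : ℍ) : ℂ)) = fun g =>
        (((g 0 0 : ℝ) : ℂ) * ((I : ℍ) : ℂ) + ((g 0 1 : ℝ) : ℂ)) /
          (((g 1 0 : ℝ) : ℂ) * ((I : ℍ) : ℂ) + ((g 1 1 : ℝ) : ℂ)) := by
      funext g
      exact IN0_coe g I
    rw [hfun]
    exact (((hent 0 0).mul continuous_const).add (hent 0 1)).div
      (((hent 1 0).mul continuous_const).add (hent 1 1)) fun g => IN0_den g I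
  have hf : ContinuousOn (fderiv ℝ (QU.onC V)) {w : ℂ | 0 < w.im} :=
    hV.continuousOn_fderiv_of_isOpen IN0_open (by norm_num)
  have h1 : Continuous fun g : SL(2, ℝ) => fderiv ℝ (QU.onC V) ((g • I : ℍ) : ℂ) :=
    hf.comp_continuous hz fun g => (g • I : ℍ).im_pos
  have h2 : Continuous fun g : SL(2, ℝ) =>
      vv / (((g 1 0 : ℝ) : ℂ) * Complex.I + ((g 1 1 : ℝ) : ℂ)) ^ 2 :=
    continuous_const.div ((((hent 1 0).mul continuous_const).add (hent 1 1)).pow 2)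
      fun g => pow_ne_zero 2 (IN0_den g I)
  exact h1.clm_apply h2

theorem IN0_aM (hGLC : GLC_stmt) : HasDerivAt (fun τ : ℝ => ((aM τ • I : ℍ) : ℂ)) Complex.I 0 ∧ aM 0 • I = (I : ℍ) := by
  obtain ⟨-, -, -, -, -, -, -, hA, -⟩ := hGLC
  have hfun : (fun τ : ℝ => ((aM τ • I : ℍ) : ℂ)) = fun τ => (Real.exp τ : ℂ) * Complex.I := by
    funext τ
    exact hA τ I
  refine ⟨?_, ?_⟩
  · rw [hfun]
    have h1 := ((Real.hasDerivAt_exp (0 : ℝ)).ofReal_comp).mul_const Complex.I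
    rw [Real.exp_zero, Complex.ofReal_one, one_mul] at h1
    exact h1
  · apply UpperHalfPlane.ext
    rw [hA 0 I, Real.exp_zero, Complex.ofReal_one, one_mul]

theorem IN0_nM (hGLC : GLC_stmt) : HasDerivAt (fun τ : ℝ => ((nM τ • I : ℍ) : ℂ)) 1 0 ∧ nM 0 • I = (I : ℍ) := by
  obtain ⟨-, -, -, -, -, -, -, -, hN, -⟩ := hGLC
  have hfun : (fun τ : ℝ => ((nM τ • I : ℍ) : ℂ)) = fun τ : ℝ => Complex.I + (τ : ℂ) := by
    funext τ
    exact hN τ I
  refine ⟨?_, ?_⟩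
  · rw [hfun]
    have h1 := ((hasDerivAt_id (0 : ℝ)).ofReal_comp).const_add Complex.I
    simpa using h1
  · apply UpperHalfPlane.ext
    rw [hN 0 I, Complex.ofReal_zero, add_zero]

theorem IN0_lM (hGLC : GLC_stmt) : HasDerivAt (fun τ : ℝ => ((lM τ • I : ℍ) : ℂ)) 1 0 ∧ lM 0 • I = (I : ℍ) := by
  obtain ⟨-, -, -, -, -, -, -, -, -, hL, -⟩ := hGLC
  have hfun : (fun τ : ℝ => ((lM τ • I : ℍ) : ℂ)) = fun τ : ℝ => Complex.I / ((τ : ℂ) * Complex.I + 1) := by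
    funext τ
    exact hL τ I
  refine ⟨?_, ?_⟩
  · rw [hfun]
    have h1 := (((hasDerivAt_id (0 : ℝ)).ofReal_comp).mul_const Complex.I).add_const (1 : ℂ)
    have h2 := (hasDerivAt_const (0 : ℝ) Complex.I).div h1 (by simp)
    exact h2.congr_deriv (by simp)
  · apply UpperHalfPlane.ext
    rw [hL 0 I, Complex.ofReal_zero, zero_mul, zero_add, div_one]

theorem IN0_inv (Γ : Subgroup SL(2, ℝ)) (V : ℍ → ℝ) (hI : QU.Inv Γ V) (hV : QU.CD 2 V)
    (h : ℝ → SL(2, ℝ)) (vv : ℂ) (hh : HasDerivAt (fun τ : ℝ => ((h τ • I : ℍ) : ℂ)) vv 0)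
    (h0 : h 0 • I = (I : ℍ)) : InvG Γ (IN0_d V vv) := by
  refine ⟨IN0_cont V hV vv, fun γ g => ?_⟩
  have h1 := IN0_der V hV ((γ : SL(2, ℝ)) * g) (fun τ => h τ • I) vv hh h0
  have h2 := IN0_der V hV g (fun τ => h τ • I) vv hh h0
  have hfun : (fun τ => V (((γ : SL(2, ℝ)) * g) • (h τ • I))) = fun τ => V (g • (h τ • I)) := by
    funext τ
    rw [mul_smul]
    exact hI.2 γ (g • (h τ • I))
  rw [hfun] at h1
  exact h1.unique h2

theorem IN0 (hGLC : GLC_stmt) (hGBD : GBD_stmt) : IN0_stmt := by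
  intro Γ V hΓ hI hV
  obtain ⟨hA, hA0⟩ := IN0_aM hGLC
  obtain ⟨hN, hN0⟩ := IN0_nM hGLC
  obtain ⟨hL, hL0⟩ := IN0_lM hGLC
  have iA := IN0_inv Γ V hI hV aM _ hA hA0
  have iN := IN0_inv Γ V hI hV nM _ hN hN0
  have iV : InvG Γ (fun g : SL(2, ℝ) => V (g • I)) := by
    refine ⟨?_, fun γ g => ?_⟩
    · refine hI.1.comp ?_
      exact continuous_id.smul continuous_const
    · show V (((γ : SL(2, ℝ)) * g) • I) = V (g • I)
      rw [mul_smul]
      exact hI.2 γ (g • I)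
  obtain ⟨m1, h1⟩ := (hGBD Γ ℝ _ hΓ iA).1
  obtain ⟨m2, h2⟩ := (hGBD Γ ℝ _ hΓ iN).1
  obtain ⟨m3, h3⟩ := (hGBD Γ ℝ _ hΓ iV).1
  simp only [Real.norm_eq_abs] at h1 h2 h3
  obtain ⟨-, -, -, -, -, -, -, -, -, -, hAA, -, -, -, -, -, -, hNA, hLA, -⟩ := hGLC
  refine ⟨IN0_d V Complex.I, IN0_d V 1, IN0_d V 1, max m1 (max m2 m3), ?_, iA, iN, iN, iV, ?_, ?_⟩
  · exact (abs_nonneg _).trans ((h1 1).trans (le_max_left _ _))
  · intro g
    refine ⟨(h3 g).trans ((le_max_right _ _).trans (le_max_right _ _)), (h1 g).trans (le_max_left _ _),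
      (h2 g).trans ((le_max_left _ _).trans (le_max_right _ _)),
      (h2 g).trans ((le_max_left _ _).trans (le_max_right _ _))⟩
  · intro g t
    have dA := IN0_der V hV (g * aM t) (fun τ => aM τ • I) _ hA hA0
    have dN := IN0_der V hV (g * aM t) (fun τ => nM τ • I) _ hN hN0
    have dL := IN0_der V hV (g * aM t) (fun τ => lM τ • I) _ hL hL0
    refine ⟨?_, ?_, ?_⟩
    · have hfun : (fun τ : ℝ => V ((g * aM τ * aM t) • I)) = fun τ => V ((g * aM t) • (aM τ • I)) := by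
        funext τ
        rw [smul_smul, mul_assoc, mul_assoc, ← hAA, ← hAA, add_comm]
      rw [hfun]
      exact dA
    · have hfun : (fun x : ℝ => V ((g * nM x * aM t) • I)) =
          (fun y : ℝ => V ((g * aM t) • (nM y • I))) ∘ fun x : ℝ => Real.exp (-t) * x := by
        funext x
        rw [Function.comp_apply, smul_smul, mul_assoc, mul_assoc, hNA]
      rw [hfun]
      have hin : HasDerivAt (fun x : ℝ => Real.exp (-t) * x) (Real.exp (-t)) 0 := by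
        simpa using (hasDerivAt_id (0 : ℝ)).const_mul (Real.exp (-t))
      have h0 : Real.exp (-t) * (0 : ℝ) = 0 := mul_zero _
      have dN' : HasDerivAt (fun y : ℝ => V ((g * aM t) • (nM y • I))) (IN0_d V 1 (g * aM t))
          (Real.exp (-t) * (0 : ℝ)) := by
        rw [h0]
        exact dN
      have h4 := dN'.comp (0 : ℝ) hin
      rw [mul_comm] at h4
      exact h4
    · have hfun : (fun u : ℝ => V ((g * lM u * aM t) • I)) =
          (fun y : ℝ => V ((g * aM t) • (lM y • I))) ∘ fun u : ℝ => Real.exp t * u := by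
        funext x
        rw [Function.comp_apply, smul_smul, mul_assoc, mul_assoc, hLA]
      rw [hfun]
      have hin : HasDerivAt (fun x : ℝ => Real.exp t * x) (Real.exp t) 0 := by
        simpa using (hasDerivAt_id (0 : ℝ)).const_mul (Real.exp t)
      have h0 : Real.exp t * (0 : ℝ) = 0 := mul_zero _
      have dL' : HasDerivAt (fun y : ℝ => V ((g * aM t) • (lM y • I))) (IN0_d V 1 (g * aM t))
          (Real.exp t * (0 : ℝ)) := by
        rw [h0]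
        exact dL
      have h4 := dL'.comp (0 : ℝ) hin
      rw [mul_comm] at h4
      exact h4

end Pool.Agent.RS
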